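import Pool.Agent.Y199.Gon.Line
import Pool.Agent.Y199.Gon.Smooth

/-!
MP_83f7cc_ag, Q1: a smooth surface with a dominant map to `P²` of minimal degree for which the
preimages of the general lines have smaller gonality.
-/

set_option autoImplicit false

namespace Pool.Agent.Results.MP_83f7cc_ag.InsepDoublePlane

open MvPolynomial Pool.Agent.Y199.Gon

universe u

/-- Let `k` be an algebraically closed field of characteristic two and `X` the surface
`Σ x_i y_i² = Σ x_i² y_i = 0` in `P² × P²`. Then `X` is smooth (Jacobian criterion) and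
irreducible. The first projection `ψ : X → P²` is dominant of degree `2`, and this is the smallest
degree of a dominant rational map from `X` to `P²`. But for every line `L` in a nonempty open set of
lines, the curve `ψ⁻¹(L)` is irreducible and has gonality `1`. -/
theorem result (k : Type u) [Field k] [IsAlgClosed k] [CharP k 2] :
    IsSmooth (eqF k) (eqG k) ∧
    (∃ (K : Type u) (_ : Field K) (_ : Algebra k K) (x y : Fin 3 → K),
      IsFunctionField (zeroLocus (eqF k) (eqG k)) x y) ∧
    (∀ (K : Type u) [Field K] [Algebra k K] (x y : Fin 3 → K),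
      IsFunctionField (zeroLocus (eqF k) (eqG k)) x y →
      IsDominantOfDegree k ![x 1 / x 0, x 2 / x 0] 2 ∧
      IsLeast {d | ∃ u : Fin 2 → K, IsDominantOfDegree k u d} 2) ∧
    ∃ h : MvPolynomial (Fin 3) k, h ≠ 0 ∧ (∃ n, h.IsHomogeneous n) ∧
      ∀ a : Fin 3 → k, eval a h ≠ 0 →
        (∃ (K : Type u) (_ : Field K) (_ : Algebra k K) (x y : Fin 3 → K),
          IsFunctionField (overLine a) x y) ∧
        (∀ (K : Type u) [Field K] [Algebra k K] (x y : Fin 3 → K),
          IsFunctionField (overLine a) x y →
          IsLeast {d | ∃ u : Fin 1 → K, IsDominantOfDegree k u d} 1) := by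
  refine ⟨?_, surf_exists, fun K _ _ x y h => ff_main h, badPoly k, badPoly_ne,
    badPoly_homogeneous, fun a ha => ⟨line_exists ?_ (bad_good ha),
      fun K _ _ x y h => line_gon (bad_ne ha) h⟩⟩
  · rintro ⟨x, y⟩ ⟨hx, hy, -, -⟩
    exact smooth_aux hx hy
  · intro h0
    exact bad_ne ha 0 (congrFun h0 0)

end Pool.Agent.Results.MP_83f7cc_ag.InsepDoublePlane
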